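import Pool.Agent.Helper64.FL.StH

/-! Full list for MP_866009_co: the first vertex and exactly one interior vertex are in `UU`. -/

set_option autoImplicit false

namespace Pool.Agent.Helper38.FL

open Pool.Agent.Helper64.CT Pool.Agent.Helper64.DT Pool.Agent.Helper64.FL

variable {V : Type}

/-- parts of an induced path -/
theorem ipt_app {G : SimpleGraph V} : ∀ (A B : List V), IPt G (A ++ B) → IPt G A ∧ IPt G B ∧
    ∀ u ∈ A, ∀ w ∈ B, u ≠ w ∧ (G.Adj u w ↔ A.getLast? = some u ∧ B.head? = some w)
  | [], B, h => ⟨trivial, h, fun u hu => absurd hu (List.not_mem_nil)⟩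
  | a :: A, B, h => by
    have h' : (∀ x ∈ A ++ B, a ≠ x) ∧ (∀ b ∈ (A ++ B).head?, G.Adj a b) ∧
      (∀ x ∈ (A ++ B).tail, ¬ G.Adj a x) ∧ IPt G (A ++ B) := h
    obtain ⟨h1, h2, h3, h4⟩ := h'
    obtain ⟨i1, i2, i3⟩ := ipt_app A B h4
    cases A with
    | nil =>
      rw [List.nil_append] at h1 h2 h3
      refine ⟨⟨by simp, by simp, by simp, trivial⟩, i2, ?_⟩
      intro u hu w hw
      rw [List.mem_singleton] at hu
      subst hu
      refine ⟨h1 w hw, ?_⟩
      constructor
      · intro hA
        refine ⟨rfl, ?_⟩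
        cases B with
        | nil => exact absurd hw (List.not_mem_nil)
        | cons b0 B =>
          rw [List.mem_cons] at hw
          rcases hw with rfl | hw
          · rfl
          · exact absurd hA (h3 w hw)
      · rintro ⟨-, hw'⟩
        exact h2 w hw'
    | cons a1 A =>
      refine ⟨⟨fun x hx => h1 x (List.mem_append_left _ hx), fun b hb => h2 b hb,
        fun x hx => h3 x (List.mem_append_left _ hx), i1⟩, i2, ?_⟩
      intro u hu w hw
      have hl : (a :: a1 :: A).getLast? = (a1 :: A).getLast? := List.getLast?_cons_cons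
      rw [List.mem_cons] at hu
      rcases hu with rfl | hu
      · refine ⟨h1 w (List.mem_append_right _ hw), ?_⟩
        constructor
        · intro hA
          exact absurd hA (h3 w (List.mem_append_right _ hw))
        · rintro ⟨h5, -⟩
          rw [hl] at h5
          exact absurd rfl (h1 u (List.mem_append_left _ (List.mem_of_getLast? h5)))
      · rw [hl]
        exact i3 u hu w hw

/-- a connector -/
theorem conn {G : SimpleGraph V} {v f : V} {l : List V} (h : IPt G (v :: (l ++ [f])))
    (hl : l ≠ []) : ∃ d Ld d', Con G v f d Ld d' ∧ ∀ u, (u = d ∨ u ∈ Ld ∨ u = d') → u ∈ l := by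
  have h' : (∀ x ∈ l ++ [f], v ≠ x) ∧ (∀ b ∈ (l ++ [f]).head?, G.Adj v b) ∧
    (∀ x ∈ (l ++ [f]).tail, ¬ G.Adj v x) ∧ IPt G (l ++ [f]) := h
  obtain ⟨h1, h2, h3, h4⟩ := h'
  obtain ⟨i1, -, i3⟩ := ipt_app l [f] h4
  have key : ∀ u ∈ l, u ≠ v ∧ u ≠ f ∧ (G.Adj u f ↔ l.getLast? = some u) := by
    intro u hu
    obtain ⟨a1, a2⟩ := i3 u hu f (by simp)
    refine ⟨(h1 u (List.mem_append_left _ hu)).symm, a1, ?_⟩
    rw [a2]
    simp
  cases l with
  | nil => exact absurd rfl hl
  | cons d rest =>
    have vd : G.Adj v d := h2 d rfl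
    rcases List.eq_nil_or_concat rest with rfl | ⟨Ld, d', rfl⟩
    · refine ⟨d, [], d, ⟨vd, ?_, Or.inl ⟨rfl, rfl⟩, fun h => absurd rfl h, by simp, ?_⟩, ?_⟩
      · exact ((key d (by simp)).2.2.2 rfl).symm
      · intro u hu
        have : u = d := by simpa using hu
        rw [this]
        exact ⟨(key d (by simp)).1, (key d (by simp)).2.1⟩
      · intro u hu
        have : u = d := by simpa using hu
        rw [this]
        simp
    · rw [List.concat_eq_append] at *
      have hlast : (d :: (Ld ++ [d'])).getLast? = some d' := by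
        rw [← List.cons_append, List.getLast?_append_of_ne_nil _ (by simp)]
        rfl
      have i1' : (∀ x ∈ Ld ++ [d'], d ≠ x) ∧ (∀ b ∈ (Ld ++ [d']).head?, G.Adj d b) ∧
        (∀ x ∈ (Ld ++ [d']).tail, ¬ G.Adj d x) ∧ IPt G (Ld ++ [d']) := i1
      obtain ⟨j1, -, -, j4⟩ := i1'
      obtain ⟨-, -, j5⟩ := ipt_app Ld [d'] j4
      have hdd : d ≠ d' := j1 d' (by simp)
      have hmem : ∀ u, (u = d ∨ u ∈ Ld ∨ u = d') → u ∈ d :: (Ld ++ [d']) := by
        rintro u (rfl | hu | rfl)
        · simp
        · simp [hu]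
        · simp
      have hnl : ∀ u, u ∈ d :: (Ld ++ [d']) → u ≠ d' → ¬ G.Adj f u := by
        intro u hu hne hadj
        have := (key u hu).2.2.1 hadj.symm
        rw [hlast] at this
        exact hne (Option.some_injective _ this).symm
      have hnv : ∀ u, u ∈ Ld ++ [d'] → ¬ G.Adj v u := by
        intro u hu
        exact h3 u (by
          rw [List.cons_append, List.tail_cons]
          exact List.mem_append_left _ hu)
      refine ⟨d, Ld, d', ⟨vd, ?_, Or.inr ⟨hdd, i1⟩, fun _ => ⟨hnv d' (by simp), ?_⟩, ?_, ?_⟩,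
        hmem⟩
      · exact ((key d' (by simp)).2.2.2 hlast).symm
      · exact hnl d (by simp) hdd
      · intro u hu
        exact ⟨hnv u (by simp [hu]), hnl u (by simp [hu]) (j5 u hu d' (by simp)).1⟩
      · intro u hu
        exact ⟨(key u (hmem u hu)).1, (key u (hmem u hu)).2.1⟩

theorem arc_sub {G : SimpleGraph V} {x : V} {n : ℕ → V} {P : ℕ → List V} {a b c d : ℕ}
    (h : Arc G x n P a b) (ac : a ≤ c) (cd : c ≤ d) (db : d ≤ b) : Arc G x n P c d where
  ab := cd
  xn i h1 h2 := h.xn i (by omega) (by omega)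
  inj i j h1 h2 h3 := h.inj i j (by omega) h2 (by omega)
  ne i h1 h2 := h.ne i (by omega) (by omega)
  ip i h1 h2 := h.ip i (by omega) (by omega)
  far i h1 h2 := h.far i (by omega) (by omega)
  fst i h1 h2 := h.fst i (by omega) (by omega)
  lst i h1 h2 := h.lst i (by omega) (by omega)
  cln i j h1 h2 h3 h4 h5 h6 := h.cln i j (by omega) (by omega) (by omega) (by omega) h5 h6
  sep i j h1 h2 h3 := h.sep i j (by omega) h2 (by omega)

/-- different components -/
theorem comp_sep (hC : ST_CNB) {G : SimpleGraph V} {x a b u w : V} (h : ¬ Comp G x a b)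
    (hu : Comp G x a u) (hw : Comp G x b w) : u ≠ w ∧ ¬ G.Adj u w := by
  obtain ⟨c1, c2, -, c4, c5, -, -⟩ := hC V G
  have k1 := (c5 x a u).1 hu
  have k2 := (c5 x b w).1 hw
  have k3 := (c1 _ _ _ k2).2
  constructor
  · rintro rfl
    exact h ((c5 x a b).2 (c2 _ _ _ _ k1 k3))
  · intro hA
    have k4 := c4 _ _ _ (c1 _ _ _ k1).1 (c1 _ _ _ k2).1 hA
    exact h ((c5 x a b).2 (c2 _ _ _ _ (c2 _ _ _ _ k1 k4) k3))

theorem comp_far (hC : ST_CNB) {G : SimpleGraph V} {x a u : V} (hu : Comp G x a u) :
    u ≠ x ∧ ¬ G.Adj x u := by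
  obtain ⟨c1, -, -, -, c5, -, -⟩ := hC V G
  exact (c1 _ _ _ ((c5 x a u).1 hu)).1

theorem st_DJ1 (hC : ST_CNB) (hD0 : ST_D0F) (hD1 : ST_D1F) (hA : ST_D1A) (hS : ST_STB)
    (hL : ST_LPW) : ST_DJ1 := by
  intro V G x k y u0 l1 f l2 um hR hP hu0 hf hl1 hl2
  have hk := hP.moc.k5
  obtain ⟨-, -, -, ⟨n0, hn0, m0, hm0, hnm⟩, -, -⟩ := hD0 V G x k y hP.moc hP.dom
  obtain ⟨f1, f2, f3, f4, -, f6⟩ := hD1 V G x k y u0 _ um hP
  have hum : u0 ≠ um := f6 hu0
  have hxR : ∀ n ∈ RR G x k y, G.Adj x n := by
    rintro n ⟨j, -, -, h⟩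
    exact h.1
  -- the path
  have hpth : IPt G (u0 :: ((l1 ++ f :: l2) ++ [um])) := by
    rcases hP.p.pth with ⟨h, -⟩ | ⟨-, h⟩
    · exact absurd h hum
    · exact h
  have hsplit : u0 :: ((l1 ++ f :: l2) ++ [um]) = (u0 :: (l1 ++ [f])) ++ (l2 ++ [um]) := by
    simp
  rw [hsplit] at hpth
  obtain ⟨p1, p2, p3⟩ := ipt_app _ _ hpth
  have hlast : (u0 :: (l1 ++ [f])).getLast? = some f := by
    rw [← List.cons_append, List.getLast?_append_of_ne_nil _ (by simp)]
    rfl
  rw [hlast] at p3
  have p1' : (∀ z ∈ l1 ++ [f], u0 ≠ z) ∧ (∀ b ∈ (l1 ++ [f]).head?, G.Adj u0 b) ∧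
    (∀ z ∈ (l1 ++ [f]).tail, ¬ G.Adj u0 z) ∧ IPt G (l1 ++ [f]) := p1
  obtain ⟨q1, q2, q3, q4⟩ := p1'
  have hu0f : u0 ≠ f := q1 f (by simp)
  -- `u0` and `f` are not adjacent
  have hcu0 : Comp G x (y 0) u0 := hu0.1
  have hcf : Comp G x (y 0) f := hf.1
  have hcum : Comp G x (y 0) um := hP.p.rK
  have hcl : ∀ u ∈ l1 ++ f :: l2, Comp G x (y 0) u := fun u hu => hP.p.LK u hu
  have fu0 := comp_far hC hcu0
  have ff := comp_far hC hcf
  have hn0m0 : ¬ G.Adj n0 m0 :=
    (hS V G hR.df x u0 n0 m0 fu0.1 hnm (hxR n0 hn0) (hxR m0 hm0) (hu0.2 n0 hn0)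
      (hu0.2 m0 hm0)).1 fu0.2
  have hnadj : ¬ G.Adj u0 f :=
    (hS V G hR.df u0 f n0 m0 hu0f.symm hnm (hu0.2 n0 hn0) (hu0.2 m0 hm0) (hf.2 n0 hn0)
      (hf.2 m0 hm0)).2 hn0m0
  have hl1ne : l1 ≠ [] := by
    rintro rfl
    exact hnadj (q2 f rfl)
  -- the other ends
  obtain ⟨-, q, hqA, hqn⟩ := hP.m0
  obtain ⟨⟨p, hpA, hpu⟩, -⟩ := hP.mm
  have hpR : p ∉ RR G x k y := fun h => f3 p h hpu
  have hqR : q ∉ RR G x k y := fun h => hqn (hu0.2 q h)
  obtain ⟨n, P, arc, e0, ek, hn, hPc, -, -⟩ := hA V G x k y u0 _ um hR.df hP p q hpA hpR hqA hqR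
  -- `f` is complete to all attachments
  have hfc : ∀ j, 1 ≤ j → j < k → ∀ n ∈ Att G x (y j), G.Adj f n := by
    rcases f1 f (by simp) with ⟨-, h⟩ | ⟨h, -⟩
    · exact h
    · exact absurd hf h
  have hl1c : ∀ u ∈ l1, ∀ j, 1 ≤ j → j < k → ∀ n ∈ Att G x (y j), ¬ G.Adj u n := by
    intro u hu
    rcases f1 u (by simp [hu]) with ⟨h, -⟩ | ⟨-, h⟩
    · exact absurd h (hl1 u hu)
    · exact h
  have hl2c : ∀ u ∈ l2, ∀ j, 1 ≤ j → j < k → ∀ n ∈ Att G x (y j), ¬ G.Adj u n := by
    intro u hu
    rcases f1 u (by simp [hu]) with ⟨h, -⟩ | ⟨-, h⟩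
    · exact absurd h (hl2 u hu)
    · exact h
  -- every `n i` is an attachment
  have hnA : ∀ i, i + 2 ≤ k → ∃ j, 1 ≤ j ∧ j < k ∧ n i ∈ Att G x (y j) := by
    intro i hi
    rcases Nat.eq_zero_or_pos i with rfl | h
    · exact ⟨1, le_refl 1, by omega, by rw [e0]; exact hpA⟩
    · exact ⟨i, h, by omega, (hn i h hi).1⟩
  have hnA' : ∀ i, i + 1 ≤ k → ∃ j, 1 ≤ j ∧ j < k ∧ n i ∈ Att G x (y j) := by
    intro i hi
    rcases Nat.lt_or_ge (i + 1) k with h | h
    · exact hnA i (by omega)
    · have : i = k - 1 := by omega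
      exact ⟨k - 1, by omega, by omega, by rw [this, ek]; exact hqA⟩
  have hxn : ∀ i, i + 1 ≤ k → G.Adj x (n i) := fun i hi => arc.xn i (by omega) (by omega)
  have hfn : ∀ i, i + 1 ≤ k → G.Adj f (n i) := by
    intro i hi
    obtain ⟨j, j1, j2, j3⟩ := hnA' i hi
    exact hfc j j1 j2 _ j3
  have hu0n : ∀ i, i + 2 ≤ k → G.Adj u0 (n i) := by
    intro i hi
    rcases Nat.eq_zero_or_pos i with rfl | h
    · rw [e0]
      exact hP.u1 u0 hu0 p hpA
    · exact hu0.2 _ (hn i h hi).2.2
  -- the `n i` are pairwise nonadjacent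
  have hst : ∀ i j, i < j → j + 1 ≤ k → ¬ G.Adj (n i) (n j) := by
    intro i j hij hj
    exact (hS V G hR.df x f (n i) (n j) ff.1 (arc.inj i j (by omega) hij (by omega))
      (hxn i (by omega)) (hxn j hj) (hfn i (by omega)) (hfn j hj)).1 ff.2
  -- separation
  have hcu : ∀ u, (u = u0 ∨ u = um ∨ u ∈ l1 ++ f :: l2) → Comp G x (y 0) u := by
    rintro u (rfl | rfl | hu)
    · exact hcu0
    · exact hcum
    · exact hcl u hu
  have hsep : ∀ u, Comp G x (y 0) u → ∀ i, i + 1 < k → ∀ w ∈ P i, u ≠ w ∧ ¬ G.Adj u w := by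
    intro u hu i hi w hw
    exact comp_sep hC (hP.moc.ncm 0 (i + 1) (by omega) (by omega)) hu (hPc i hi w hw)
  have hun : ∀ u, Comp G x (y 0) u → ∀ i, i + 1 ≤ k → u ≠ n i := by
    intro u hu i hi h
    have := (comp_far hC hu).2
    rw [h] at this
    exact this (hxn i hi)
  have hE1 : ∀ u ∈ l2 ++ [um], Comp G x (y 0) u := by
    intro u hu
    rw [List.mem_append, List.mem_singleton] at hu
    rcases hu with hu | rfl
    · exact hcl u (by simp [hu])
    · exact hcum
  have hE1A : ∀ u ∈ l2 ++ [um], ∀ i, 1 ≤ i → i + 2 ≤ k → ¬ G.Adj u (n i) := by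
    intro u hu i hi1 hi2
    rw [List.mem_append, List.mem_singleton] at hu
    rcases hu with hu | rfl
    · exact hl2c u hu i hi1 (by omega) _ (hn i hi1 hi2).1
    · exact f3 _ (hn i hi1 hi2).2.2
  have hE1q : ∀ u ∈ l2 ++ [um], ¬ G.Adj u q := by
    intro u hu
    rw [List.mem_append, List.mem_singleton] at hu
    rcases hu with hu | rfl
    · exact hl2c u hu (k - 1) (by omega) (by omega) _ hqA
    · exact f4 hum q hqA
  have hum2 : um ∉ l2 := by
    intro h
    obtain ⟨-, -, h3⟩ := ipt_app l2 [um] p2
    exact (h3 um h um (by simp)).1 rfl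
  have hE1last : (l2 ++ [um]).getLast? = some um := by simp
  have hk2 : k - 2 + 1 = k - 1 := by omega
  have hPne : P (k - 2) ≠ [] := arc.ne (k - 2) (by omega) (by omega)
  have hE2head : (P (k - 2) ++ [q]).head? = (P (k - 2)).head? := by
    cases hPk : P (k - 2) with
    | nil => exact absurd hPk hPne
    | cons z Z => rfl
  have hE2last : (P (k - 2) ++ [q]).getLast? = some q := by simp
  have hPq : ∀ i, i + 2 < k → ∀ w ∈ P i, ¬ G.Adj q w := by
    intro i hi w hw
    have := arc.cln i (k - 1) (by omega) (by omega) (by omega) (le_refl _) (by omega) (by omega)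
      w hw
    rwa [ek] at this
  have hqP : ∀ i, i + 1 < k → ∀ w ∈ P i, w ≠ q := by
    intro i hi w hw h
    have h1 := (arc.far i (by omega) (by omega) w hw).2
    rw [h, ← ek] at h1
    exact h1 (hxn (k - 1) (by omega))
  -- the ladder
  have hLP : LPc G x u0 f (l2 ++ [um]) n P 0 (k - 2) (P (k - 2) ++ [q]) false false := by
    refine
      { arc := arc_sub arc (le_refl 0) (by omega) (by omega)
        st := fun i j _ hij hj => hst i j hij (by omega)
        hk := hu0f
        nhk := hnadj
        hn := fun i _ hi => ⟨hu0n i (by omega), hfn i (by omega)⟩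
        hP := ?_
        ne1 := by simp
        ne2 := by simp
        ip1 := p2
        ip2 := ?_
        h1 := ?_
        t1 := ?_
        h2 := ?_
        t2 := ?_
        e1 := ?_
        e2 := ?_
        c1 := ?_
        c2 := ?_
        c12 := ?_ }
    · intro i _ hi u hu
      have a1 := hsep u0 hcu0 i (by omega) u hu
      have a2 := hsep f hcf i (by omega) u hu
      exact ⟨a1.1.symm, a2.1.symm, a1.2, a2.2⟩
    · -- `P (k-2) ++ [q]` is an induced path
      have key : ∀ A : List V, IPt G A → (∀ u ∈ A, u ≠ q ∧ (G.Adj u q ↔ A.getLast? = some u)) →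
          IPt G (A ++ [q]) := by
        intro A
        induction A with
        | nil => intro _ _; exact ⟨by simp, by simp, by simp, trivial⟩
        | cons a A ih =>
          intro hA hq
          have hA' : (∀ x ∈ A, a ≠ x) ∧ (∀ b ∈ A.head?, G.Adj a b) ∧
            (∀ x ∈ A.tail, ¬ G.Adj a x) ∧ IPt G A := hA
          obtain ⟨a1, a2, a3, a4⟩ := hA'
          cases A with
          | nil =>
            have := hq a (by simp)
            refine ⟨?_, ?_, ?_, ?_⟩
            · intro z hz
              have : z = q := by simpa using hz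
              rw [this]
              exact (hq a (by simp)).1
            · intro b hb
              have hb' : q = b := by simpa using hb
              rw [← hb']
              exact (hq a (by simp)).2.2 rfl
            · intro z hz
              exact absurd hz (List.not_mem_nil)
            · exact ⟨by simp, by simp, by simp, trivial⟩
          | cons a' A =>
            have hll : (a :: a' :: A).getLast? = (a' :: A).getLast? := List.getLast?_cons_cons
            refine ⟨?_, ?_, ?_, ?_⟩
            · intro z hz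
              have hz' : z ∈ (a' :: A) ++ [q] := hz
              rw [List.mem_append, List.mem_singleton] at hz'
              rcases hz' with hz | rfl
              · exact a1 z hz
              · exact (hq a (by simp)).1
            · intro b hb
              exact a2 b hb
            · intro z hz
              have hz' : z ∈ A ++ [q] := hz
              rw [List.mem_append, List.mem_singleton] at hz'
              rcases hz' with hz | rfl
              · exact a3 z hz
              · intro h
                have h' := (hq a (by simp)).2.1 h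
                rw [hll] at h'
                exact a1 a (List.mem_of_getLast? h') rfl
            · refine ih a4 fun u hu => ?_
              have := hq u (by simp [hu])
              rw [hll] at this
              exact this
      refine key _ (arc.ip _ (by omega) (by omega)) fun u hu => ⟨hqP (k - 2) (by omega) u hu, ?_⟩
      have := arc.lst (k - 2) (by omega) (by omega) u hu
      rw [hk2, ek] at this
      rw [← this]
      exact ⟨fun h => h.symm, fun h => h.symm⟩
    · intro u hu
      have hu' : u ∈ l2 ++ [um] := List.mem_of_head? hu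
      have a1 := p3 u0 (by simp) u hu'
      have a2 := p3 f (by simp) u hu'
      constructor
      · constructor
        · intro h
          exact absurd (Option.some_injective _ (a1.2.1 h).1) hu0f.symm
        · intro h
          exact absurd h (by decide)
      · exact ⟨fun _ => rfl, fun _ => a2.2.2 ⟨rfl, hu⟩⟩
    · intro u hu
      have hu' : u ∈ l2 ++ [um] := List.mem_of_mem_tail hu
      have a1 := p3 u0 (by simp) u hu'
      have a2 := p3 f (by simp) u hu'
      constructor
      · intro h
        exact hu0f (Option.some_injective _ (a1.2.1 h).1).symm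
      · intro h
        have h2 := (a2.2.1 h).2
        cases hE : l2 ++ [um] with
        | nil => simp at hE
        | cons z Z =>
          rw [hE] at hu h2 p2
          have p2' : (∀ x ∈ Z, z ≠ x) ∧ (∀ b ∈ Z.head?, G.Adj z b) ∧
            (∀ x ∈ Z.tail, ¬ G.Adj z x) ∧ IPt G Z := p2
          have h3 : z = u := Option.some_injective _ h2
          exact p2'.1 u hu h3
    · intro u hu
      rw [hE2last] at hu
      have : q = u := Option.some_injective _ hu
      rw [← this]
      refine ⟨⟨fun h => absurd h hqn, fun h => absurd h (by decide)⟩, fun _ => rfl, fun _ => ?_⟩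
      exact hfc (k - 1) (by omega) (by omega) q hqA
    · intro u hu
      rw [List.dropLast_concat] at hu
      exact ⟨(hsep u0 hcu0 (k - 2) (by omega) u hu).2, (hsep f hcf (k - 2) (by omega) u hu).2⟩
    · intro u hu
      have a1 := p3 u0 (by simp) u hu
      have a2 := p3 f (by simp) u hu
      refine ⟨a1.1.symm, a2.1.symm, ?_⟩
      rw [hE1last, e0]
      rw [List.mem_append, List.mem_singleton] at hu
      rcases hu with hu | rfl
      · constructor
        · intro h
          exact absurd h (hl2c u hu 1 (le_refl 1) (by omega) p hpA)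
        · intro h
          have : um = u := Option.some_injective _ h
          rw [this] at hum2
          exact absurd hu hum2
      · exact ⟨fun _ => rfl, fun _ => hpu⟩
    · intro u hu
      rw [hE2head, Nat.zero_add]
      rw [List.mem_append, List.mem_singleton] at hu
      rcases hu with hu | rfl
      · have a1 := hsep u0 hcu0 (k - 2) (by omega) u hu
        have a2 := hsep f hcf (k - 2) (by omega) u hu
        refine ⟨a1.1.symm, a2.1.symm, ?_⟩
        rw [← arc.fst (k - 2) (by omega) (by omega) u hu]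
        exact ⟨fun h => h.symm, fun h => h.symm⟩
      · refine ⟨?_, ?_, ?_⟩
        · intro h
          exact hun u0 hcu0 (k - 1) (by omega) (by rw [ek, h])
        · intro h
          exact hun f hcf (k - 1) (by omega) (by rw [ek, h])
        · constructor
          · intro h
            have := hst (k - 2) (k - 1) (by omega) (by omega)
            rw [ek] at this
            exact absurd h.symm this
          · intro h
            exact absurd rfl (hqP (k - 2) (by omega) u (List.mem_of_head? h))
    · intro u hu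
      refine ⟨fun i _ hi => ⟨hun u (hE1 u hu) i (by omega), fun hi0 => ?_⟩, fun i _ hi w hw => ?_⟩
      · exact hE1A u hu i (by omega) (by omega)
      · exact hsep u (hE1 u hu) i (by omega) w hw
    · intro u hu
      rw [List.mem_append, List.mem_singleton] at hu
      rcases hu with hu | rfl
      · refine ⟨fun i _ hi => ⟨?_, fun hi0 h => ?_⟩, fun i _ hi w hw => ?_⟩
        · intro h
          have h1 := (arc.far (k - 2) (by omega) (by omega) u hu).2
          rw [h] at h1
          exact h1 (hxn i (by omega))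
        · exact arc.cln (k - 2) i (by omega) (by omega) (by omega) (by omega) (by omega)
            (by omega) u hu h.symm
        · have := arc.sep i (k - 2) (by omega) (by omega) (by omega) w hw u hu
          exact ⟨this.1.symm, fun h => this.2 h.symm⟩
      · refine ⟨fun i _ hi => ⟨?_, fun hi0 h => ?_⟩, fun i _ hi w hw => ?_⟩
        · intro h
          exact arc.inj i (k - 1) (by omega) (by omega) (by omega) (by rw [ek, h])
        · have := hst i (k - 1) (by omega) (by omega)
          rw [ek] at this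
          exact this h.symm
        · exact ⟨(hqP i (by omega) w hw).symm, hPq i (by omega) w hw⟩
    · intro u hu w hw
      rw [List.mem_append, List.mem_singleton] at hw
      rcases hw with hw | rfl
      · exact hsep u (hE1 u hu) (k - 2) (by omega) w hw
      · refine ⟨?_, hE1q u hu⟩
        intro h
        exact hun u (hE1 u hu) (k - 1) (by omega) (by rw [ek, h])
  obtain ⟨d, Ld, d', hcon, hmem⟩ := conn p1 hl1ne
  refine hL V G x u0 f _ n P 0 (k - 2) _ false false hLP (by omega) d Ld d' hcon ?_ {v | v ≠ x}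
    ?_ ?_ (hR.naj x)
  · intro u hu
    have hu1 := hmem u hu
    have hcu1 : Comp G x (y 0) u := hcl u (by simp [hu1])
    have huf : u ≠ f := by
      obtain ⟨-, -, h3⟩ := ipt_app l1 [f] q4
      exact (h3 u hu1 f (by simp)).1
    refine ⟨?_, ?_, ?_, ?_⟩
    · intro v hv
      have := p3 u (by simp [hu1]) v hv
      exact ⟨this.1, fun h => huf (Option.some_injective _ (this.2.1 h).1).symm⟩
    · intro v hv
      rw [List.mem_append, List.mem_singleton] at hv
      rcases hv with hv | rfl
      · exact hsep u hcu1 (k - 2) (by omega) v hv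
      · refine ⟨?_, hl1c u hu1 (k - 1) (by omega) (by omega) _ hqA⟩
        intro h
        exact hun u hcu1 (k - 1) (by omega) (by rw [ek, h])
    · intro i _ hi
      obtain ⟨j, j1, j2, j3⟩ := hnA' i (by omega)
      exact ⟨hun u hcu1 i (by omega), hl1c u hu1 j j1 j2 _ j3⟩
    · intro i _ hi w hw
      exact hsep u hcu1 i (by omega) w hw
  · have hne : ∀ u, Comp G x (y 0) u → u ≠ x := fun u hu => (comp_far hC hu).1
    have hPx : ∀ i, i + 1 < k → ∀ w ∈ P i, w ≠ x := fun i hi w hw =>
      (arc.far i (by omega) (by omega) w hw).1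
    rintro v (rfl | rfl | hv | hv | ⟨i, -, hi, rfl⟩ | ⟨i, -, hi, hv⟩)
    · exact hne _ hcu0
    · exact hne _ hcf
    · exact hne _ (hE1 v hv)
    · rw [List.mem_append, List.mem_singleton] at hv
      rcases hv with hv | rfl
      · exact hPx (k - 2) (by omega) v hv
      · have := (hxn (k - 1) (by omega)).ne
        rw [ek] at this
        exact this.symm
    · exact (hxn i (by omega)).ne.symm
    · exact hPx i (by omega) v hv
  · intro u hu
    exact (comp_far hC (hcl u (by simp [hmem u hu]))).1

end Pool.Agent.Helper38.FL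

namespace Pool.Agent.Helper64.FL

theorem st_DJ1 (h1 : ST_CNB) (h2 : ST_D0F) (h3 : ST_D1F) (h4 : ST_D1A) (h5 : ST_STB)
    (h7 : ST_LPW) : ST_DJ1 := Pool.Agent.Helper38.FL.st_DJ1 h1 h2 h3 h4 h5 h7

end Pool.Agent.Helper64.FL
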