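import Pool.Agent.Helper38.FL.DJ1

/-! Full list for MP_866009_co: ST_F2A. -/

set_option autoImplicit false

namespace Pool.Agent.Helper38.FL

open Pool.Agent.Helper64.CT Pool.Agent.Helper64.DT Pool.Agent.Helper64.FL

variable {V : Type}

/-- two different links of a necklace -/
theorem neck_sep {G : SimpleGraph V} {x : V} {k : ℕ} {n : ℕ → V} {P : ℕ → List V}
    (N : Neck G x k n P) {l j : ℕ} (h1 : l < j) (h2 : j < l + k) :
    ∀ u ∈ P l, ∀ w ∈ P j, u ≠ w ∧ ¬ G.Adj u w := by
  have hk := N.k5
  intro u hu w hw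
  by_cases h : j + 1 < l + k
  · exact (N.arc l).sep l j (le_refl l) h1 (by omega) u hu w hw
  · have e : j + 1 = l + k := by omega
    have hu' : u ∈ P (j + 1) := by
      rw [e, N.pP]
      exact hu
    have := (N.arc j).sep j (j + 1) (le_refl j) (by omega) (by omega) w hw u hu'
    exact ⟨this.1.symm, fun h => this.2 h.symm⟩

theorem st_F2A (hF : ST_F2X) : ST_F2A := by
  intro V G x k n P hR N i j hij hjk hodd hadj hno
  have hk := N.k5
  have arc : Arc G x n P i j := arc_sub (N.arc i) (le_refl i) (by omega) (by omega)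
  obtain ⟨z, hz⟩ : ∃ z, z ∈ P j := by
    have h := (N.arc j).ne j (le_refl j) (by omega)
    exact List.exists_mem_of_ne_nil _ h
  have hzf := (N.arc j).far j (le_refl j) (by omega) z hz
  refine hF V G {w | w ≠ z} x n P i j arc ?_ hadj ?_ hij hodd (hR.naj z)
  · rintro v (rfl | ⟨l, h1, h2, rfl⟩ | ⟨l, h1, h2, hv⟩)
    · exact hzf.1.symm
    · intro h
      have h3 := arc.xn l h1 h2
      rw [h] at h3
      exact hzf.2 h3
    · exact (neck_sep N h2 (by omega) v hv z hz).1
  · intro l h1 h2
    refine ⟨hno l h1 h2, fun h => hno l h1 h2 ?_⟩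
    exact hR.df (n j) x (n i) (n l) (arc.xn j (by omega) (le_refl j)).symm hadj.symm
      (arc.xn i (le_refl i) (by omega)) h (arc.xn l (by omega) (by omega))
      (arc.inj i l (le_refl i) h1 (by omega))

end Pool.Agent.Helper38.FL

namespace Pool.Agent.Helper64.FL

theorem st_F2A (h1 : ST_F2X) : ST_F2A := Pool.Agent.Helper38.FL.st_F2A h1

end Pool.Agent.Helper64.FL
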