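import Pool.Agent.Helper64.FL.StC

/-! Full list for MP_866009_co: paths of a cycle of connections that are not consecutive are
anticomplete, except possibly for an edge between two ends. -/

set_option autoImplicit false

namespace Pool.Agent.Helper38.FL

open Pool.Agent.Helper64.CT Pool.Agent.Helper64.DT Pool.Agent.Helper64.FL

variable {V : Type}

/-- parts of an induced path -/
theorem hcb_app {G : SimpleGraph V} : ∀ (A B : List V), IPt G (A ++ B) → IPt G A ∧
    ∀ u ∈ A, ∀ w ∈ B, u ≠ w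
  | [], B, h => ⟨trivial, fun u hu => absurd hu (List.not_mem_nil)⟩
  | a :: A, B, h => by
    have h' : (∀ x ∈ A ++ B, a ≠ x) ∧ (∀ b ∈ (A ++ B).head?, G.Adj a b) ∧
      (∀ x ∈ (A ++ B).tail, ¬ G.Adj a x) ∧ IPt G (A ++ B) := h
    obtain ⟨h1, h2, h3, h4⟩ := h'
    obtain ⟨i1, i3⟩ := hcb_app A B h4
    refine ⟨?_, ?_⟩
    · cases A with
      | nil => exact ⟨by simp, by simp, by simp, trivial⟩
      | cons a1 A =>
        exact ⟨fun x hx => h1 x (List.mem_append_left _ hx), fun b hb => h2 b hb,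
          fun x hx => h3 x (List.mem_append_left _ hx), i1⟩
    · intro u hu w hw
      rw [List.mem_cons] at hu
      rcases hu with rfl | hu
      · exact h1 w (List.mem_append_right _ hw)
      · exact i3 u hu w hw

/-- the vertices of a path are connected to its first vertex -/
theorem hcb_con (CNB : ST_CNB) {G : SimpleGraph V} {S : Set V} : ∀ (L : List V) (a p : V),
    IPt G L → L.head? = some a → p ∈ L → (∀ v ∈ L, v ∈ S) → Cn G S a p
  | [], a, p, _, _, hp, _ => absurd hp (List.not_mem_nil)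
  | b :: L, a, p, h, ha, hp, hS => by
    have h' : (∀ x ∈ L, b ≠ x) ∧ (∀ c ∈ L.head?, G.Adj b c) ∧
      (∀ x ∈ L.tail, ¬ G.Adj b x) ∧ IPt G L := h
    obtain ⟨h1, h2, h3, h4⟩ := h'
    obtain ⟨c1, c2, c3, c4, c5, c6, c7⟩ := CNB V G
    have hab : b = a := Option.some.inj ha
    subst hab
    have hbS : b ∈ S := hS b List.mem_cons_self
    rw [List.mem_cons] at hp
    rcases hp with rfl | hp
    · exact ⟨hbS, Relation.ReflTransGen.refl⟩
    · cases L with
      | nil => exact absurd hp (List.not_mem_nil)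
      | cons c L =>
        have hc : G.Adj b c := h2 c rfl
        have hcS : c ∈ S := hS c (List.mem_cons_of_mem _ List.mem_cons_self)
        exact c2 S b c p (c4 S b c hbS hcS hc)
          (hcb_con CNB (c :: L) c p h4 rfl hp fun v hv => hS v (List.mem_cons_of_mem _ hv))

/-- from the first vertex to `p` without the last vertex -/
theorem hcb_A (CNB : ST_CNB) {G : SimpleGraph V} {L : List V} {a b p : V} (h : IPt G L)
    (ha : L.head? = some a) (hb : L.getLast? = some b) (hp : p ∈ L) (hpb : p ≠ b) :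
    Cn G {v | v ∈ L ∧ v ≠ b} a p := by
  rcases List.eq_nil_or_concat L with rfl | ⟨L', c, rfl⟩
  · exact absurd hp (List.not_mem_nil)
  · rw [List.concat_eq_append] at h ha hb hp ⊢
    have hcb : c = b := by
      rw [List.getLast?_concat] at hb
      exact Option.some.inj hb
    subst hcb
    obtain ⟨i1, i2⟩ := hcb_app L' [c] h
    have hpL : p ∈ L' := by
      rcases List.mem_append.1 hp with h | h
      · exact h
      · exact absurd (List.mem_singleton.1 h) hpb
    have haL : L'.head? = some a := by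
      cases L' with
      | nil => exact absurd hpL (List.not_mem_nil)
      | cons d L' => exact ha
    exact hcb_con CNB L' a p i1 haL hpL fun v hv =>
      ⟨List.mem_append_left _ hv, i2 v hv c (List.mem_singleton.2 rfl)⟩

/-- from the last vertex to `p` without the first vertex -/
theorem hcb_B (CNB : ST_CNB) {G : SimpleGraph V} {L : List V} {a b p : V} (h : IPt G L)
    (ha : L.head? = some a) (hb : L.getLast? = some b) (hp : p ∈ L) (hpa : p ≠ a) :
    Cn G {v | v ∈ L ∧ v ≠ a} b p := by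
  obtain ⟨c1, c2, c3, c4, c5, c6, c7⟩ := CNB V G
  cases L with
  | nil => exact absurd hp (List.not_mem_nil)
  | cons d L =>
    have had : d = a := Option.some.inj ha
    subst had
    have h' : (∀ x ∈ L, d ≠ x) ∧ (∀ c ∈ L.head?, G.Adj d c) ∧
      (∀ x ∈ L.tail, ¬ G.Adj d x) ∧ IPt G L := h
    obtain ⟨h1, h2, h3, h4⟩ := h'
    have hpL : p ∈ L := by
      rcases List.mem_cons.1 hp with h | h
      · exact absurd h hpa
      · exact h
    cases L with
    | nil => exact absurd hpL (List.not_mem_nil)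
    | cons c L =>
      have hb' : (c :: L).getLast? = some b := by
        rw [List.getLast?_cons_cons] at hb
        exact hb
      have hbL : b ∈ c :: L := List.mem_of_getLast? hb'
      have hS : ∀ v ∈ c :: L, v ∈ {v | v ∈ d :: c :: L ∧ v ≠ d} := fun v hv =>
        ⟨List.mem_cons_of_mem _ hv, fun hvd => h1 v hv hvd.symm⟩
      exact c2 _ b c p (c1 _ c b (hcb_con CNB (c :: L) c b h4 rfl hbL hS)).2
        (hcb_con CNB (c :: L) c p h4 rfl hpL hS)

/-- the vertices outside `Q` adjacent to no vertex of `Q` except possibly `x` -/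
def hcbN (G : SimpleGraph V) (Q : Set V) (x : V) : Set V :=
  {v | v ∉ Q ∧ ∀ y ∈ Q, y ≠ x → ¬ G.Adj y v}

/-- two rays connected to adjacent or equal vertices -/
theorem hcb_J (CNB : ST_CNB) {G : SimpleGraph V} {Q : Set V} {a b x y p p' : V} (hab : a ≠ b)
    (hx : RayQ G Q a x) (hy : RayQ G Q b y) (h1 : Cn G (hcbN G Q a) x p)
    (h2 : Cn G (hcbN G Q b) y p') (hp : p = p' ∨ G.Adj p p') : BE G Q a b x y := by
  obtain ⟨c1, c2, c3, c4, c5, c6, c7⟩ := CNB V G
  have s1 : hcbN G Q a ⊆ ZZ G Q a b := fun v hv => ⟨hv.1, fun q hq hqa _ => hv.2 q hq hqa⟩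
  have s2 : hcbN G Q b ⊆ ZZ G Q a b := fun v hv => ⟨hv.1, fun q hq _ hqb => hv.2 q hq hqb⟩
  have k1 : Cn G (ZZ G Q a b) x p := c3 _ _ _ _ s1 h1
  have k2 : Cn G (ZZ G Q a b) y p' := c3 _ _ _ _ s2 h2
  refine ⟨hab, hx, hy, ?_⟩
  rcases hp with rfl | hp
  · exact c2 _ _ _ _ k1 (c1 _ _ _ k2).2
  · exact c2 _ _ _ _ k1 (c2 _ _ _ _ (c4 _ _ _ (c1 _ _ _ k1).1 (c1 _ _ _ k2).1 hp)
      (c1 _ _ _ k2).2)

/-- three connections at one vertex -/
theorem hcb_R3 [Finite V] (h1 : ST_HR3) {G : SimpleGraph V} {Q : Set V} {σ : V → Bool}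
    (E : EnvC G Q σ) {z a b c u1 u2 u3 w1 w2 w3 : V} (ha : BE G Q z a u1 w1)
    (hb : BE G Q z b u2 w2) (hc : BE G Q z c u3 w3) (hab : a ≠ b) (hac : a ≠ c) (hbc : b ≠ c) :
    False := by
  refine h1 V G Q σ E z (fun i => if i = 0 then a else if i = 1 then b else c)
    (fun i => if i = 0 then u1 else if i = 1 then u2 else u3)
    (fun i => if i = 0 then w1 else if i = 1 then w2 else w3) ?_ ?_
  · intro i hi
    interval_cases i
    · exact ha
    · exact hb
    · exact hc
  · intro i hi j hj hij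
    interval_cases i <;> interval_cases j
    · exact absurd rfl hij
    · exact hab
    · exact hac
    · exact hab.symm
    · exact absurd rfl hij
    · exact hbc
    · exact hac.symm
    · exact hbc.symm
    · exact absurd rfl hij

theorem st_HCB (h1 : ST_HR3) (h2 : ST_BCF) (h3 : ST_RAY) (CNB : ST_CNB) (PTB : ST_PTB) :
    ST_HCB := by
  intro V hV G Q σ E m q P u w B hm i j hij hji p hp p' hp' hpp
  have hDF : DF G := E.red.1
  obtain ⟨r1, r2, r3, r4, r5, r6⟩ := h3 V G Q hDF E.mx
  obtain ⟨b1, -, -, -, -⟩ := h2 V G Q σ E m q P u w B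
  obtain ⟨c1, c2, c3, c4, c5, c6, c7⟩ := CNB V G
  have hcur : ∀ k, BE G Q (q k) (q (k + 1)) (u k) (w (k + 1)) := b1
  have hprev : ∀ k, BE G Q (q (k + 1)) (q k) (w (k + 1)) (u k) := fun k =>
    (r4 _ _ _ _ (b1 k)).1
  have huw : ∀ k, u k ≠ w (k + 1) := fun k => (r4 _ _ _ _ (b1 k)).2.2.2.1
  have hA : ∀ k, ∀ v ∈ P k, v ≠ w (k + 1) → Cn G (hcbN G Q (q k)) (u k) v := by
    intro k v hv hvw
    refine c3 _ _ _ _ ?_ (hcb_A CNB (B.ip k) (B.hd k) (B.lt k) hv hvw)
    rintro x ⟨hx, hxw⟩
    obtain ⟨z1, z2, z3⟩ := B.zz k x hx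
    refine ⟨z1.1, fun y hy hyq hyx => ?_⟩
    by_cases hy1 : y = q (k + 1)
    · subst hy1
      exact hxw (z3 hyx)
    · exact z1.2 y hy hyq hy1 hyx
  have hB : ∀ k, ∀ v ∈ P k, v ≠ u k → Cn G (hcbN G Q (q (k + 1))) (w (k + 1)) v := by
    intro k v hv hvw
    refine c3 _ _ _ _ ?_ (hcb_B CNB (B.ip k) (B.hd k) (B.lt k) hv hvw)
    rintro x ⟨hx, hxw⟩
    obtain ⟨z1, z2, z3⟩ := B.zz k x hx
    refine ⟨z1.1, fun y hy hyq hyx => ?_⟩
    by_cases hy1 : y = q k
    · subst hy1
      exact hxw (z2 hyx)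
    · exact z1.2 y hy hy1 hyq hyx
  -- the previous connection at `q i`
  have hpi : BE G Q (q i) (q (i + m - 1)) (w i) (u (i + m - 1)) := by
    have h := hprev (i + m - 1)
    have e : i + m - 1 + 1 = i + m := by omega
    rw [e, B.pq i, B.pw i] at h
    exact h
  by_cases k1 : p = w (i + 1)
  · have k2 : p ≠ u i := fun h => huw i (h.symm.trans k1)
    by_cases k3 : p' = u j
    · have k4 : p' ≠ w (j + 1) := fun h => huw j (k3.symm.trans h)
      by_cases hj : j = i + 2
      · subst hj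
        exact Or.inl ⟨rfl, k1, k3⟩
      · exfalso
        have hne : q (i + 1) ≠ q j := B.inj (i + 1) j (by omega) (by omega)
        have hb := hcb_J CNB hne (B.rW (i + 1)) (B.rU j) (hB i p hp k2) (hA j p' hp' k4) hpp
        exact hcb_R3 h1 E (hprev i) (hcur (i + 1)) hb (B.inj i (i + 1 + 1) (by omega) (by omega))
          (B.inj i j (by omega) (by omega)) (B.inj (i + 1 + 1) j (by omega) (by omega))
    · exfalso
      have hne : q (i + 1) ≠ q (j + 1) := B.inj (i + 1) (j + 1) (by omega) (by omega)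
      have hb := hcb_J CNB hne (B.rW (i + 1)) (B.rW (j + 1)) (hB i p hp k2) (hB j p' hp' k3) hpp
      exact hcb_R3 h1 E (hprev i) (hcur (i + 1)) hb (B.inj i (i + 1 + 1) (by omega) (by omega))
        (B.inj i (j + 1) (by omega) (by omega))
        (B.inj (i + 1 + 1) (j + 1) (by omega) (by omega))
  · by_cases k3 : p' = w (j + 1)
    · have k4 : p' ≠ u j := fun h => huw j (h.symm.trans k3)
      by_cases k2 : p = u i
      · by_cases hj : j + 2 = i + m
        · exact Or.inr ⟨hj, k2, k3⟩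
        · exfalso
          have hne : q i ≠ q (j + 1) := B.inj i (j + 1) (by omega) (by omega)
          have hb := hcb_J CNB hne (B.rU i) (B.rW (j + 1)) (hA i p hp k1) (hB j p' hp' k4) hpp
          exact hcb_R3 h1 E (hcur i) hpi hb (B.inj (i + 1) (i + m - 1) (by omega) (by omega))
            (B.inj (i + 1) (j + 1) (by omega) (by omega))
            (B.inj (j + 1) (i + m - 1) (by omega) (by omega)).symm
      · exfalso
        have hne : q (i + 1) ≠ q (j + 1) := B.inj (i + 1) (j + 1) (by omega) (by omega)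
        have hb := hcb_J CNB hne (B.rW (i + 1)) (B.rW (j + 1)) (hB i p hp k2) (hB j p' hp' k4) hpp
        exact hcb_R3 h1 E (hprev i) (hcur (i + 1)) hb (B.inj i (i + 1 + 1) (by omega) (by omega))
          (B.inj i (j + 1) (by omega) (by omega))
          (B.inj (i + 1 + 1) (j + 1) (by omega) (by omega))
    · exfalso
      have hne : q i ≠ q j := B.inj i j (by omega) (by omega)
      have hb := hcb_J CNB hne (B.rU i) (B.rU j) (hA i p hp k1) (hA j p' hp' k3) hpp
      exact hcb_R3 h1 E (hcur i) hpi hb (B.inj (i + 1) (i + m - 1) (by omega) (by omega))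
        (B.inj (i + 1) j (by omega) (by omega))
        (B.inj j (i + m - 1) (by omega) (by omega)).symm

end Pool.Agent.Helper38.FL

namespace Pool.Agent.Helper64.FL

/-- module HCB -/
theorem st_HCB (h1 : ST_HR3) (h2 : ST_BCF) (h3 : ST_RAY) (CNB : ST_CNB) (PTB : ST_PTB) :
    ST_HCB := Pool.Agent.Helper38.FL.st_HCB h1 h2 h3 CNB PTB

end Pool.Agent.Helper64.FL
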