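import Pool.Agent.Helper64.FL.StG

/-! QB2: three pairwise conflicting components, the configuration B2. -/

set_option autoImplicit false

namespace Pool.Agent.Helper64.FL

open Pool.Agent.Helper64.CT Pool.Agent.Helper64.DT
open Pool.Agent.Helper64.HG (Ovl Model Circ IC HellyCircle ChordModel)

theorem qb2_far {V : Type} {G : SimpleGraph V} {x y u : V} (h : u ∈ KC G x y) :
    x ≠ u ∧ ¬ G.Adj x u := by
  obtain ⟨-, hz, -⟩ := h
  exact ⟨fun e => hz.1 e.symm, hz.2⟩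

theorem qb2_pth {V : Type} {G : SimpleGraph V} {a w : V} {l : List V} (h : Pth G a l w)
    (hne : a ≠ w) : IPt G (a :: (l ++ [w])) := by
  rcases h with ⟨h, -⟩ | ⟨-, h⟩
  · exact absurd h hne
  · exact h

theorem qb2_tri {V : Type} {G : SimpleGraph V} {a w : V} {l : List V} (h : Pth G a l w)
    (he : a = w) : l = [] := by
  rcases h with ⟨-, h⟩ | ⟨h, -⟩
  · exact h
  · exact absurd he h

/-- reversed facts for anticomplete sets -/
theorem qb2_sy {V : Type} {G : SimpleGraph V} {A B : Set V} (h : Anti G A B) : Anti G B A :=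
  fun u hu v hv => ⟨fun e => (h v hv u hu).1 e.symm, fun e => (h v hv u hu).2 e.symm⟩

theorem st_QB2 (hS : ST_SEP) (hB : ST_PTB) : ST_QB2 := by
  intro V G hN x y1 y2 y3 n12 n23 n31 c12 c13 c23 x12 x23 x31 m12 m13 m23 h31 h12 h23
    b Lb b' c Lc c' a La a' hb hc ha
  obtain ⟨-, hPn, -⟩ := hB V G
  have A12 := hS V G x y1 y2 c12
  have A13 := hS V G x y1 y3 c13
  have A23 := hS V G x y2 y3 c23
  have A21 := qb2_sy A12
  have A31 := qb2_sy A13
  have A32 := qb2_sy A23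
  have nadj : ∀ {s u y : V}, G.Adj x s → u ∈ KC G x y → u ≠ s := by
    intro s u y hs hu h
    rw [h] at hu
    exact (qb2_far hu).2 hs
  have natt : ∀ {s u y : V}, s ∉ Att G x y → G.Adj x s → u ∈ KC G x y → ¬ G.Adj u s := by
    intro s u y hs hx hu h
    exact hs ⟨hx, u, hu, h.symm⟩
  have bK := hb.lK
  have b'K := hb.rK
  have cK := hc.lK
  have c'K := hc.rK
  have aK := ha.lK
  have a'K := ha.rK
  have LbK := hb.LK
  have LcK := hc.LK
  have LaK := ha.LK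
  -- edges
  have e41 := hb.la
  have e52 := hb.rb
  have e62 := hc.la
  have e73 := hc.rb
  have e83 := ha.la
  have e91 := ha.rb
  -- nonadjacent pairs
  have d04 := qb2_far bK
  have d05 := qb2_far b'K
  have d06 := qb2_far cK
  have d07 := qb2_far c'K
  have d08 := qb2_far aK
  have d09 := qb2_far a'K
  have d43 : b ≠ n31 ∧ ¬ G.Adj b n31 := ⟨nadj x31 bK, natt h31 x31 bK⟩
  have d53 : b' ≠ n31 ∧ ¬ G.Adj b' n31 := ⟨nadj x31 b'K, natt h31 x31 b'K⟩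
  have d61 : c ≠ n12 ∧ ¬ G.Adj c n12 := ⟨nadj x12 cK, natt h12 x12 cK⟩
  have d71 : c' ≠ n12 ∧ ¬ G.Adj c' n12 := ⟨nadj x12 c'K, natt h12 x12 c'K⟩
  have d82 : a ≠ n23 ∧ ¬ G.Adj a n23 := ⟨nadj x23 aK, natt h23 x23 aK⟩
  have d92 : a' ≠ n23 ∧ ¬ G.Adj a' n23 := ⟨nadj x23 a'K, natt h23 x23 a'K⟩
  have d64 := A32 c cK b bK
  have d65 := A32 c cK b' b'K
  have d74 := A32 c' c'K b bK
  have d75 := A32 c' c'K b' b'K
  have d84 := A12 a aK b bK
  have d85 := A12 a aK b' b'K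
  have d86 := A13 a aK c cK
  have d87 := A13 a aK c' c'K
  have d94 := A12 a' a'K b bK
  have d95 := A12 a' a'K b' b'K
  have d96 := A13 a' a'K c cK
  have d97 := A13 a' a'K c' c'K
  -- vertices not on the paths
  obtain ⟨p4, p5, -⟩ := hPn b Lb b' hb.pth
  obtain ⟨q6, q7, -⟩ := hPn c Lc c' hc.pth
  obtain ⟨r8, r9, -⟩ := hPn a La a' ha.pth
  have nb : ∀ {s : V}, G.Adj x s → s ∉ Lb := fun hs hm => nadj hs (LbK _ hm) rfl
  have nc : ∀ {s : V}, G.Adj x s → s ∉ Lc := fun hs hm => nadj hs (LcK _ hm) rfl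
  have na : ∀ {s : V}, G.Adj x s → s ∉ La := fun hs hm => nadj hs (LaK _ hm) rfl
  have p0 : x ∉ Lb := fun hm => (qb2_far (LbK _ hm)).1 rfl
  have q0 : x ∉ Lc := fun hm => (qb2_far (LcK _ hm)).1 rfl
  have r0 : x ∉ La := fun hm => (qb2_far (LaK _ hm)).1 rfl
  have p1 := nb x12
  have p2 := nb x23
  have p3 := nb x31
  have q1 := nc x12
  have q2 := nc x23
  have q3 := nc x31
  have r1 := na x12
  have r2 := na x23
  have r3 := na x31
  have p6 : c ∉ Lb := fun hm => (A23 c (LbK _ hm) c cK).1 rfl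
  have p7 : c' ∉ Lb := fun hm => (A23 c' (LbK _ hm) c' c'K).1 rfl
  have p8 : a ∉ Lb := fun hm => (A21 a (LbK _ hm) a aK).1 rfl
  have p9 : a' ∉ Lb := fun hm => (A21 a' (LbK _ hm) a' a'K).1 rfl
  have q4 : b ∉ Lc := fun hm => (A32 b (LcK _ hm) b bK).1 rfl
  have q5 : b' ∉ Lc := fun hm => (A32 b' (LcK _ hm) b' b'K).1 rfl
  have q8 : a ∉ Lc := fun hm => (A31 a (LcK _ hm) a aK).1 rfl
  have q9 : a' ∉ Lc := fun hm => (A31 a' (LcK _ hm) a' a'K).1 rfl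
  have r4 : b ∉ La := fun hm => (A12 b (LaK _ hm) b bK).1 rfl
  have r5 : b' ∉ La := fun hm => (A12 b' (LaK _ hm) b' b'K).1 rfl
  have r6 : c ∉ La := fun hm => (A13 c (LaK _ hm) c cK).1 rfl
  have r7 : c' ∉ La := fun hm => (A13 c' (LaK _ hm) c' c'K).1 rfl
  -- clean paths
  have cb0 : ∀ u ∈ Lb, ¬ G.Adj x u := fun u hu => (qb2_far (LbK u hu)).2
  have cb1 : ∀ u ∈ Lb, ¬ G.Adj n12 u := fun u hu h => (hb.Lab u hu).1 h.symm
  have cb2 : ∀ u ∈ Lb, ¬ G.Adj n23 u := fun u hu h => (hb.Lab u hu).2 h.symm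
  have cb3 : ∀ u ∈ Lb, ¬ G.Adj n31 u := fun u hu h => natt h31 x31 (LbK u hu) h.symm
  have cb6 : ∀ u ∈ Lb, ¬ G.Adj c u := fun u hu => (A32 c cK u (LbK u hu)).2
  have cb7 : ∀ u ∈ Lb, ¬ G.Adj c' u := fun u hu => (A32 c' c'K u (LbK u hu)).2
  have cb8 : ∀ u ∈ Lb, ¬ G.Adj a u := fun u hu => (A12 a aK u (LbK u hu)).2
  have cb9 : ∀ u ∈ Lb, ¬ G.Adj a' u := fun u hu => (A12 a' a'K u (LbK u hu)).2
  have cc0 : ∀ u ∈ Lc, ¬ G.Adj x u := fun u hu => (qb2_far (LcK u hu)).2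
  have cc1 : ∀ u ∈ Lc, ¬ G.Adj n12 u := fun u hu h => natt h12 x12 (LcK u hu) h.symm
  have cc2 : ∀ u ∈ Lc, ¬ G.Adj n23 u := fun u hu h => (hc.Lab u hu).1 h.symm
  have cc3 : ∀ u ∈ Lc, ¬ G.Adj n31 u := fun u hu h => (hc.Lab u hu).2 h.symm
  have cc4 : ∀ u ∈ Lc, ¬ G.Adj b u := fun u hu => (A23 b bK u (LcK u hu)).2
  have cc5 : ∀ u ∈ Lc, ¬ G.Adj b' u := fun u hu => (A23 b' b'K u (LcK u hu)).2
  have cc8 : ∀ u ∈ Lc, ¬ G.Adj a u := fun u hu => (A13 a aK u (LcK u hu)).2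
  have cc9 : ∀ u ∈ Lc, ¬ G.Adj a' u := fun u hu => (A13 a' a'K u (LcK u hu)).2
  have ca0 : ∀ u ∈ La, ¬ G.Adj x u := fun u hu => (qb2_far (LaK u hu)).2
  have ca1 : ∀ u ∈ La, ¬ G.Adj n12 u := fun u hu h => (ha.Lab u hu).2 h.symm
  have ca2 : ∀ u ∈ La, ¬ G.Adj n23 u := fun u hu h => natt h23 x23 (LaK u hu) h.symm
  have ca3 : ∀ u ∈ La, ¬ G.Adj n31 u := fun u hu h => (ha.Lab u hu).1 h.symm
  have ca4 : ∀ u ∈ La, ¬ G.Adj b u := fun u hu => (A21 b bK u (LaK u hu)).2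
  have ca5 : ∀ u ∈ La, ¬ G.Adj b' u := fun u hu => (A21 b' b'K u (LaK u hu)).2
  have ca6 : ∀ u ∈ La, ¬ G.Adj c u := fun u hu => (A31 c cK u (LaK u hu)).2
  have ca7 : ∀ u ∈ La, ¬ G.Adj c' u := fun u hu => (A31 c' c'K u (LaK u hu)).2
  have sp : ([Lb, Lc, La] : List (List V)).Pairwise
      (fun A B => ∀ x ∈ A, ∀ y ∈ B, x ≠ y ∧ ¬ G.Adj x y) := by
    simp only [List.pairwise_cons, List.mem_cons, List.not_mem_nil, or_false, forall_eq_or_imp,
      forall_eq, List.Pairwise.nil, and_true, false_imp_iff, implies_true]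
    exact ⟨⟨fun u hu v hv => A23 u (LbK u hu) v (LcK v hv),
      fun u hu v hv => A21 u (LbK u hu) v (LaK v hv)⟩,
      fun u hu v hv => A31 u (LcK u hu) v (LaK v hv)⟩
  -- conditional facts
  have k42 : b ≠ b' → b ≠ n23 ∧ ¬ G.Adj b n23 := fun h => ⟨nadj x23 bK, (hb.lr h).1⟩
  have k51 : b ≠ b' → b' ≠ n12 ∧ ¬ G.Adj b' n12 := fun h => ⟨nadj x12 b'K, (hb.lr h).2⟩
  have k63 : c ≠ c' → c ≠ n31 ∧ ¬ G.Adj c n31 := fun h => ⟨nadj x31 cK, (hc.lr h).1⟩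
  have k72 : c ≠ c' → c' ≠ n23 ∧ ¬ G.Adj c' n23 := fun h => ⟨nadj x23 c'K, (hc.lr h).2⟩
  have k81 : a ≠ a' → a ≠ n12 ∧ ¬ G.Adj a n12 := fun h => ⟨nadj x12 aK, (ha.lr h).1⟩
  have k93 : a ≠ a' → a' ≠ n31 ∧ ¬ G.Adj a' n31 := fun h => ⟨nadj x31 a'K, (ha.lr h).2⟩
  have pb : b ≠ b' → IPt G (b :: (Lb ++ [b'])) := qb2_pth hb.pth
  have pc : c ≠ c' → IPt G (c :: (Lc ++ [c'])) := qb2_pth hc.pth
  have pa : a ≠ a' → IPt G (a :: (La ++ [a'])) := qb2_pth ha.pth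
  have tb' : b = b' → Lb = [] := qb2_tri hb.pth
  have tc' : c = c' → Lc = [] := qb2_tri hc.pth
  have ta' : a = a' → La = [] := qb2_tri ha.pth
  refine hN preB2 (by simp [preBs])
    (fun i => ([x, n12, n23, n31, b, b', c, c', a, a'] : List V).getD i x)
    [Lb, Lc, La] ⟨?_, ?_, ?_, ?_, ?_, rfl, ?_, ?_, ?_, ?_, sp⟩
  · intro y hy; fin_cases hy <;> assumption
  · intro y hy; fin_cases hy <;> assumption
  · intro y hy; fin_cases hy <;> assumption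
  · intro y hy
    fin_cases hy
    · intro h; exact k42 (h (4, 5) (by simp))
    · intro h; exact k51 (h (4, 5) (by simp))
    · intro h; exact k63 (h (6, 7) (by simp))
    · intro h; exact k72 (h (6, 7) (by simp))
    · intro h; exact k81 (h (8, 9) (by simp))
    · intro h; exact k93 (h (8, 9) (by simp))
  · intro y hy; exact absurd hy (by simp [preB2])
  · intro y hy; fin_cases hy <;> assumption
  · intro y hy; fin_cases hy <;> assumption
  · intro y hy i hi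
    have hi' : i < 10 := hi
    fin_cases hy <;> interval_cases i <;> assumption
  · intro y hy i hi hU h1 h2
    have hi' : i < 10 := hi
    fin_cases hy <;> interval_cases i <;>
      first
      | assumption
      | exact absurd rfl h1
      | exact absurd rfl h2
      | exact absurd (by simp) hU

end Pool.Agent.Helper64.FL
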