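import Pool.Agent.Helper4.FL.CHN

set_option autoImplicit false

namespace Pool.Agent.Helper38.FL

open Pool.Agent.Helper64.FL

/-- wheel leaf -/
theorem st_WHE (h1 : ST_TBS) (h3 : ST_CHN) : ST_WHE := by
  intro V G s f L h r i l hM hC hw
  unfold whl at hw
  simp only [Bool.and_eq_true, Bool.not_eq_true'] at hw
  obtain ⟨⟨⟨⟨⟨⟨w1, w2⟩, w3⟩, w4⟩, w5⟩, w6⟩, w7⟩ := hw
  obtain ⟨-, -, -, -, -, -, -, -, t9, t10⟩ := h1
  have w1' : msk (h :: r :: i :: l) = Nat.pred (Nat.shiftLeft 1 s.n) := Nat.eq_of_beq_eq_true w1
  obtain ⟨hh, hr, hhr⟩ := chn_okp w4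
  obtain ⟨_, hi, hri⟩ := chn_okp w6
  have hn := hM.n32
  have hadj : ∀ a b, a < 32 → b < 32 → eb s a b = true → a ≠ b → G.Adj (f a) (f b) :=
    fun a b ha hb he hab => (hM.adj a b ha hb he).2.2 hab
  have hnad : ∀ a b, a < 32 → b < 32 → db s a b = true → a ≠ b → ¬ G.Adj (f a) (f b) :=
    fun a b ha hb he hab => (hM.nad a b ha hb he).2.2 hab
  have hall : ∀ k, k < s.n → k ∈ h :: r :: i :: l := by
    intro k hk
    have e1 : tb (msk (h :: r :: i :: l)) k = true := by
      rw [w1', t9]
      exact decide_eq_true hk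
    rw [t10] at e1
    exact of_decide_eq_true e1
  have hhn : h ∉ r :: i :: l := by
    rw [t10] at w2
    exact of_decide_eq_false w2
  have hms : ∀ j ∈ i :: l, tb (msk (r :: i :: l)) j = true := by
    intro j hj
    rw [t10]
    exact decide_eq_true (List.mem_cons_of_mem _ hj)
  obtain ⟨M, m1, m2, m3, m4, m5⟩ := h3 V G s f (msk (r :: i :: l)) i l L s.sg hadj hnad hn
    (fun a b ha hb he => hM.inj a b ha hb he) hM.map hi hM.pth (fun p hp x hx k hk => hM.dis p hp x hx k hk)
    (fun p hp k hk _ x hx => (hM.cln p hp k hk).2.2.2 x hx) hM.sep hms w3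
  -- the last vertex
  have hl : ∃ (j : ℕ) (t : List ℕ), l = t.reverse ++ [j] ∧ eb s r j = true ∧ okp s r j = true ∧
      nall s r t = true := by
    cases hrev : l.reverse with
    | nil =>
      rw [hrev] at w7
      exact absurd w7 (by simp)
    | cons j t =>
      rw [hrev] at w7
      simp only [Bool.and_eq_true] at w7
      refine ⟨j, t, ?_, w7.1.1, w7.1.2, w7.2⟩
      have := congrArg List.reverse hrev
      rw [List.reverse_reverse, List.reverse_cons] at this
      exact this
  obtain ⟨j, t, hl, l1, l2, l3⟩ := hl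
  obtain ⟨_, hj, hrj⟩ := chn_okp l2
  have hjl : j ∈ l := by rw [hl]; simp
  have hkt : ∀ k ∈ l, k = j ∨ k ∈ t := by
    intro k hk
    rw [hl] at hk
    rcases List.mem_append.1 hk with hk | hk
    · exact Or.inr (List.mem_reverse.1 hk)
    · exact Or.inl (by simpa using hk)
  have hrt := chn_nall l3
  have hil' : ∀ k ∈ l, i ≠ k := by
    cases hq : l with
    | nil =>
      intro k hk
      exact absurd hk (by simp)
    | cons a b =>
      rw [hq] at w3
      unfold chn at w3
      rw [Bool.and_eq_true] at w3
      obtain ⟨v1, v2⟩ := w3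
      intro k hk
      rcases List.mem_cons.1 hk with hk | hk
      · rw [hk]
        by_cases hE : eb s i a = true
        · rw [hE, cond_true, Bool.and_eq_true] at v2
          exact (chn_okp v2.1).2.2
        · rw [Bool.not_eq_true] at hE
          rw [hE, cond_false] at v2
          cases hsg : s.sg with
          | nil =>
            rw [hsg] at v2
            exact absurd v2 (by simp)
          | cons g u =>
            rw [hsg] at v2
            simp only [Bool.and_eq_true] at v2
            exact (chn_okp v2.1.1.2).2.2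
      · exact (chn_nall v1 k hk).2.2.2
  have hrl : ∀ k ∈ i :: l, r ≠ k := by
    intro k hk
    rcases List.mem_cons.1 hk with hk | hk
    · rw [hk]; exact hri
    · rcases hkt k hk with hk | hk
      · rw [hk]; exact hrj
      · exact (hrt k hk).2.2.2
  have hkn : ∀ k ∈ i :: l, k < s.n := by
    intro k hk
    rcases List.mem_cons.1 hk with hk | hk
    · rw [hk]; exact hi
    · exact m4 k hk
  have hlast : (f i :: M).getLast? = some (f j) := by
    apply m3
    rw [hl, ← List.cons_append, List.getLast?_append_of_ne_nil]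
    · rfl
    · simp
  -- a named vertex outside `i :: l` is not on the path
  have hout : ∀ k, k < s.n → (∀ q ∈ i :: l, k ≠ q) → f k ∉ f i :: M := by
    intro k hk hq hmem
    rcases (m2 (f k)).1 hmem with ⟨q, hq1, hq2⟩ | ⟨p, hp, hx⟩
    · exact hq q hq1 (hM.inj k q hk (hkn q hq1) hq2)
    · exact hM.dis p hp (f k) hx k hk rfl
  refine ⟨f h, f r, f i :: M, m1, ?_, ?_, ?_, ?_, ?_, ?_⟩
  · cases hMM : M with
    | nil =>
      exfalso
      have e1 : f j ∈ f i :: M := (m2 (f j)).2 (Or.inl ⟨j, List.mem_cons_of_mem _ hjl, rfl⟩)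
      rw [hMM] at e1
      have e2 : f j = f i := by simpa using e1
      exact hil' j hjl (hM.inj i j hi hj e2.symm)
    | cons a b => simp
  · intro e
    exact hhr (hM.inj h r hh hr e)
  · apply hout h hh
    intro q hq e
    apply hhn
    rw [e]
    exact List.mem_cons_of_mem _ hq
  · exact hout r hr hrl
  · intro x hx
    have hhead : (f i :: M).head? = some x ↔ f i = x := by simp
    have hla : (f i :: M).getLast? = some x ↔ f j = x := by
      rw [hlast]
      simp
    rw [hhead, hla]
    rcases (m2 x).1 hx with ⟨k, hk, hxk⟩ | ⟨p, hp, hxp⟩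
    · have hkn' := hkn k hk
      rw [hxk]
      rcases List.mem_cons.1 hk with hk | hk
      · rw [hk]
        exact ⟨fun _ => Or.inl rfl, fun _ => hadj r i (by omega) (by omega) w5 hri⟩
      · rcases hkt k hk with hk' | hk'
        · rw [hk']
          exact ⟨fun _ => Or.inr rfl, fun _ => hadj r j (by omega) (by omega) l1 hrj⟩
        · obtain ⟨d1, d2, d3, d4⟩ := hrt k hk'
          have hna : ¬ G.Adj (f r) (f k) := hnad r k (by omega) (by omega) d1 d4
          constructor
          · intro h'; exact absurd h' hna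
          · rintro (e | e)
            · exact absurd (hM.inj i k hi d3 e) (hil' k hk)
            · rw [← e] at hna
              exact absurd (hadj r j (by omega) (by omega) l1 hrj) hna
    · obtain ⟨q1, q2, q3⟩ := m5 p hp
      have hcl : tb p.1.cl r = true := by
        apply q3 r _ (hrl _ q1) (hrl _ q2)
        rw [t10]
        exact decide_eq_true (by simp)
      constructor
      · intro h'
        exact absurd h' ((hM.cln p hp r hcl).2.2.2 x hxp)
      · rintro (e | e)
        · exact absurd e.symm (hM.dis p hp x hxp i hi)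
        · exact absurd e.symm (hM.dis p hp x hxp j hj)
  · intro x
    rcases hC x with ⟨k, hk, hxk⟩ | ⟨p, hp, hxp⟩
    · rcases List.mem_cons.1 (hall k hk) with e | e
      · exact Or.inl (by rw [hxk, e])
      · rcases List.mem_cons.1 e with e | e
        · exact Or.inr (Or.inl (by rw [hxk, e]))
        · exact Or.inr (Or.inr ((m2 x).2 (Or.inl ⟨k, e, hxk⟩)))
    · exact Or.inr (Or.inr ((m2 x).2 (Or.inr ⟨p, hp, hxp⟩)))

end Pool.Agent.Helper38.FL
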